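import Pool.Agent.Q158.Queens

/-!
# The two formulas for single-column queens domination: A(n) < B(n) infinitely often
-/

set_option autoImplicit false

namespace Pool.Agent.Results.MP_ca5fbf_co.FormulaComparison

/-- `A(n) = n - r₃(⌈n/3⌉)`, where `rothNumberNat m` is Mathlib's Roth number, the largest size of a
subset of `{0, …, m - 1}` (equivalently, of `{1, …, m}`) without a three-term progression. -/
noncomputable def A (n : ℕ) : ℤ := n - (rothNumberNat ⌈(n : ℚ) / 3⌉₊ : ℤ)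

/-- `max_{k + l = ⌈n/2⌉} (r₃(⌈k/2⌉) + r₃(⌈l/2⌉))`. -/
noncomputable def M (n : ℕ) : ℕ :=
  (Finset.HasAntidiagonal.antidiagonal ⌈(n : ℚ) / 2⌉₊).sup fun p : ℕ × ℕ =>
    rothNumberNat ⌈(p.1 : ℚ) / 2⌉₊ + rothNumberNat ⌈(p.2 : ℚ) / 2⌉₊

/-- `B(n) = n - max_{k + l = ⌈n/2⌉} (r₃(⌈k/2⌉) + r₃(⌈l/2⌉))`. -/
noncomputable def B (n : ℕ) : ℤ := n - (M n : ℤ)

theorem ceil_half (n : ℕ) : 2 * ⌈(n : ℚ) / 2⌉₊ ≤ n + 1 := by
  have h : ⌈(n : ℚ) / 2⌉₊ ≤ (n + 1) / 2 := by
    rw [Nat.ceil_le, div_le_iff₀ (by norm_num)]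
    have : n ≤ (n + 1) / 2 * 2 := by omega
    exact_mod_cast this
  omega

/-- The inequality `A(n) ≥ B(n)` fails for infinitely many positive integers `n`. -/
theorem result : {n : ℕ | 0 < n ∧ A n < B n}.Infinite := by
  intro hfin
  obtain ⟨m, hm⟩ := hfin.bddAbove
  have key : ∀ N, m + 29 ≤ N → ∃ a b : ℕ, 4 * (a + b) ≤ 3 * N + 5 ∧
      rothNumberNat N ≤ rothNumberNat a + rothNumberNat b := by
    intro N hN
    have hnot : ¬ (0 < 3 * N ∧ A (3 * N) < B (3 * N)) := by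
      intro hmem
      have := hm hmem
      omega
    have hle : M (3 * N) ≥ rothNumberNat N := by
      by_contra hlt
      push Not at hlt
      apply hnot
      refine ⟨by omega, ?_⟩
      unfold A B
      have hc : ⌈((3 * N : ℕ) : ℚ) / 3⌉₊ = N := by
        have : ((3 * N : ℕ) : ℚ) / 3 = N := by push_cast; field_simp
        rw [this, Nat.ceil_natCast]
      rw [hc]
      omega
    obtain ⟨p, hp, hpM⟩ := Finset.exists_mem_eq_sup (Finset.HasAntidiagonal.antidiagonal ⌈((3 * N : ℕ) : ℚ) / 2⌉₊)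
      ⟨(0, _), Finset.HasAntidiagonal.mem_antidiagonal.2 (zero_add _)⟩ (fun p : ℕ × ℕ =>
        rothNumberNat ⌈(p.1 : ℚ) / 2⌉₊ + rothNumberNat ⌈(p.2 : ℚ) / 2⌉₊)
    refine ⟨⌈(p.1 : ℚ) / 2⌉₊, ⌈(p.2 : ℚ) / 2⌉₊, ?_, ?_⟩
    · have h1 := ceil_half p.1
      have h2 := ceil_half p.2
      have h3 := ceil_half (3 * N)
      rw [Finset.HasAntidiagonal.mem_antidiagonal] at hp
      omega
    · unfold M at hle
      rw [hpM] at hle
      exact hle
  exact Q158.Queens.no_power_bound ((m + 29 : ℕ) : ℝ) (by push_cast; linarith [show (0:ℝ) ≤ m by positivity])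
    (fun N => Q158.Queens.power_bound rothNumberNat rothNumberNat_le (m + 29) (by omega) key N)

end Pool.Agent.Results.MP_ca5fbf_co.FormulaComparison
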